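import Pool.Agent.W79.GM.Sect
import Pool.Agent.H376R2.MR.Fej

/-!
Project GM, task V (helper79): pairs of close directions with different signs.
-/

set_option autoImplicit false

namespace Pool.Agent.W79.GM

open Finset Filter
open Pool.Agent.H376R2.MR Pool.Agent.H970R2.X Pool.Agent.W78.GM
open GaussianInt (toComplex)

/-- representative modulo `2π` in `[-π, π]` -/
noncomputable def rd (φ : ℝ) : ℝ := φ - 2 * Real.pi * (round (φ / (2 * Real.pi)) : ℤ)

lemma abs_rd_le (φ : ℝ) : |rd φ| ≤ Real.pi := by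
  have hpi := Real.pi_pos
  have h := abs_sub_round (φ / (2 * Real.pi))
  have e : rd φ = 2 * Real.pi * (φ / (2 * Real.pi) - (round (φ / (2 * Real.pi)) : ℤ)) := by
    unfold rd
    field_simp
  rw [e, abs_mul, abs_of_pos (by positivity)]
  calc 2 * Real.pi * |φ / (2 * Real.pi) - (round (φ / (2 * Real.pi)) : ℤ)|
      ≤ 2 * Real.pi * (1 / 2) := mul_le_mul_of_nonneg_left h (by positivity)
    _ = Real.pi := by ring

lemma rd_eq (φ : ℝ) : ∃ m : ℤ, rd φ = φ + 2 * Real.pi * m := by
  refine ⟨-round (φ / (2 * Real.pi)), ?_⟩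
  unfold rd
  push_cast
  ring

lemma sin_add_two_pi_mul (x : ℝ) (m : ℤ) : Real.sin (x + 2 * Real.pi * m) = Real.sin x := by
  have : x + 2 * Real.pi * m = x + m * (2 * Real.pi) := by ring
  rw [this, Real.sin_add_int_mul_two_pi]

lemma cos_add_two_pi_mul (x : ℝ) (m : ℤ) : Real.cos (x + 2 * Real.pi * m) = Real.cos x := by
  have : x + 2 * Real.pi * m = x + m * (2 * Real.pi) := by ring
  rw [this, Real.cos_add_int_mul_two_pi]

lemma Fj_rd (K : ℕ) (φ : ℝ) : Fj K φ = Fj K (rd φ) := by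
  obtain ⟨m, hm⟩ := rd_eq φ
  unfold Fj
  refine Finset.sum_congr rfl fun k _ => ?_
  congr 1
  have : (k : ℝ) * rd φ = k * φ + 2 * Real.pi * ((k * m : ℤ) : ℝ) := by
    rw [hm]; push_cast; ring
  rw [this, cos_add_two_pi_mul]

lemma ang_mul {z u : GaussianInt} (hz : z ≠ 0) (hu : u ≠ 0) :
    ∃ j : ℤ, ang (z * u) = ang z + ang u + 2 * Real.pi * j := by
  have h := Complex.arg_mul_coe_angle (toComplex_ne_zero hz) (toComplex_ne_zero hu)
  rw [← map_mul, ← Real.Angle.coe_add, Real.Angle.angle_eq_iff_two_pi_dvd_sub] at h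
  obtain ⟨k, hk⟩ := h
  refine ⟨k, ?_⟩
  unfold ang
  linarith

lemma ang_natCast_mul {c : ℕ} (hc : 0 < c) (y : GaussianInt) :
    ang ((c : GaussianInt) * y) = ang y := by
  unfold ang
  rw [map_mul]
  have : toComplex (c : GaussianInt) = ((c : ℝ) : ℂ) := by simp
  rw [this, Complex.arg_real_mul _ (by exact_mod_cast hc)]

lemma exists_primpart {w : GaussianInt} (hw : w ≠ 0) :
    ∃ (y : GaussianInt) (c : ℕ), 0 < c ∧ prim y ∧ w = (c : GaussianInt) * y := by
  have hg : 0 < Int.gcd w.re w.im := by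
    rw [Nat.pos_iff_ne_zero, ne_eq, Int.gcd_eq_zero_iff]
    rintro ⟨h1, h2⟩
    exact hw (Zsqrtd.ext h1 h2)
  obtain ⟨a, b, hab, h1, h2⟩ := Int.exists_gcd_one hg
  refine ⟨⟨a, b⟩, Int.gcd w.re w.im, hg, hab, ?_⟩
  generalize Int.gcd w.re w.im = g at h1 h2
  apply Zsqrtd.ext
  · rw [h1]; simp; ring
  · rw [h2]; simp; ring

lemma gl_natCast_mul {c : ℕ} (hc : 0 < c) {y : GaussianInt} (hy : y ≠ 0) :
    gl ((c : GaussianInt) * y) = gl y := by
  unfold gl
  rw [nm_mul, nm_natCast, lam_mul (by positivity) (nm_pos hy).ne', pow_two,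
    lam_mul hc.ne' hc.ne', lam_sq, one_mul]

lemma gl_neg (y : GaussianInt) : gl (-y) = gl y := by
  unfold gl
  congr 1
  unfold nm
  simp

/-- a vector between two close directions is close to both -/
lemma between {z y e : GaussianInt} (hz : z ≠ 0) (hy : y ≠ 0) (he : e ≠ 0)
    (hd : 0 < dt z y) {δ : ℝ} (hδ : δ ≤ 1 / 2) {j : ℤ}
    (hs : |ang y - ang z + 2 * Real.pi * j| ≤ δ) (h1 : 0 ≤ dt z e) (h2 : 0 < dt e y) :
    (∃ j : ℤ, |ang z - ang e + 2 * Real.pi * j| ≤ δ) ∧
      (∃ j : ℤ, |ang y - ang e + 2 * Real.pi * j| ≤ δ) := by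
  have hpi := Real.pi_gt_three
  have nz : 0 < ‖toComplex z‖ := norm_pos_iff.2 (toComplex_ne_zero hz)
  have ny : 0 < ‖toComplex y‖ := norm_pos_iff.2 (toComplex_ne_zero hy)
  have ne : 0 < ‖toComplex e‖ := norm_pos_iff.2 (toComplex_ne_zero he)
  set s := ang y - ang z + 2 * Real.pi * j with hsdef
  have hs' := abs_le.1 hs
  have hsin : 0 < Real.sin s := by
    rw [hsdef, sin_add_two_pi_mul]
    have h3 : (0 : ℝ) < (dt z y : ℝ) := by exact_mod_cast hd
    rw [dt_eq_sin] at h3
    exact (mul_pos_iff_of_pos_left (mul_pos nz ny)).1 h3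
  have hspos : 0 < s := by
    by_contra hcon
    push Not at hcon
    have := Real.sin_nonpos_of_nonpos_of_neg_pi_le hcon (by linarith)
    linarith
  obtain ⟨m, hm⟩ := rd_eq (ang e - ang z)
  set t := rd (ang e - ang z) with ht
  have htabs := abs_le.1 (abs_rd_le (ang e - ang z))
  rw [← ht] at htabs
  have hsint : 0 ≤ Real.sin t := by
    rw [hm, sin_add_two_pi_mul]
    have h3 : (0 : ℝ) ≤ (dt z e : ℝ) := by exact_mod_cast h1
    rw [dt_eq_sin] at h3
    exact (mul_nonneg_iff_of_pos_left (mul_pos nz ne)).1 h3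
  have hsinst : 0 < Real.sin (s - t) := by
    have e1 : s - t = ang y - ang e + 2 * Real.pi * ((j - m : ℤ) : ℝ) := by
      rw [hm, hsdef]; push_cast; ring
    rw [e1, sin_add_two_pi_mul]
    have h3 : (0 : ℝ) < (dt e y : ℝ) := by exact_mod_cast h2
    rw [dt_eq_sin] at h3
    exact (mul_pos_iff_of_pos_left (mul_pos ne ny)).1 h3
  have ht0 : 0 ≤ t := by
    by_contra hcon
    push Not at hcon
    rcases htabs.1.lt_or_eq with h3 | h3
    · have := Real.sin_neg_of_neg_of_neg_pi_lt hcon h3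
      linarith
    · rw [← h3] at hsinst
      have e1 : s - -Real.pi = s + Real.pi := by ring
      rw [e1, Real.sin_add_pi] at hsinst
      linarith
  have hts : t < s := by
    by_contra hcon
    push Not at hcon
    have := Real.sin_nonpos_of_nonpos_of_neg_pi_le (x := s - t) (by linarith) (by linarith)
    linarith
  refine ⟨⟨-m, ?_⟩, ⟨j - m, ?_⟩⟩
  · have e1 : ang z - ang e + 2 * Real.pi * ((-m : ℤ) : ℝ) = -t := by
      rw [hm]; push_cast; ring
    rw [e1, abs_neg, abs_of_nonneg ht0]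
    linarith
  · have e1 : ang y - ang e + 2 * Real.pi * ((j - m : ℤ) : ℝ) = s - t := by
      rw [hm, hsdef]; push_cast; ring
    rw [e1, abs_of_pos (by linarith)]
    linarith

/-- a pair of close directions with different signs is close to a sign change edge -/
lemma near_edge (hB : S_BETW) {X : ℝ} {z z' u : GaussianInt} (hz : z ∈ pball X)
    (hz' : z' ∈ pball X) (hu0 : u ≠ 0) (hu : (nm u : ℝ) ≤ 2) (hgl : gl z ≠ gl (u * z')) {δ : ℝ}
    (hδ : δ ≤ 1 / 2) (hr : |rd (ang z - ang (u * z'))| ≤ δ) :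
    ∃ e ∈ sedge (2 * X), (∃ j : ℤ, |ang z - ang e.1 + 2 * Real.pi * j| ≤ δ) ∧
      (∃ j : ℤ, |ang z' - (ang e.1 - ang u) + 2 * Real.pi * j| ≤ δ) := by
  have hzp := (mem_pball.1 hz)
  have hzp' := (mem_pball.1 hz')
  have hz0 := prim_ne_zero hzp.1
  have hz0' := prim_ne_zero hzp'.1
  have hw0 : u * z' ≠ 0 := mul_ne_zero hu0 hz0'
  obtain ⟨y, c, hc, hy, hw⟩ := exists_primpart hw0
  have hy0 := prim_ne_zero hy
  have hX0 : 0 ≤ X := (Nat.cast_nonneg _).trans hzp.2
  have hyX : y ∈ pball (2 * X) := by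
    refine mem_pball.2 ⟨hy, ?_⟩
    have h1 : nm (u * z') = c ^ 2 * nm y := by rw [hw, nm_mul, nm_natCast]
    rw [nm_mul] at h1
    have h2 : (nm y : ℝ) ≤ nm u * nm z' := by
      have : nm y ≤ nm u * nm z' := by
        rw [h1]; exact Nat.le_mul_of_pos_left _ (by positivity)
      exact_mod_cast this
    calc (nm y : ℝ) ≤ nm u * nm z' := h2
      _ ≤ 2 * X := mul_le_mul hu hzp'.2 (Nat.cast_nonneg _) (by norm_num)
  have hzX : z ∈ pball (2 * X) := mem_pball.2 ⟨hzp.1, by linarith [hzp.2]⟩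
  have hang : ang (u * z') = ang y := by rw [hw, ang_natCast_mul hc]
  have hgly : gl (u * z') = gl y := by rw [hw, gl_natCast_mul hc hy0]
  rw [hgly] at hgl
  rw [hang] at hr
  obtain ⟨j1, hj1⟩ := ang_mul hu0 hz0'
  rw [hang] at hj1
  obtain ⟨m, hm⟩ := rd_eq (ang z - ang y)
  rw [hm] at hr
  have hdt : dt z y ≠ 0 := by
    intro h0
    rcases dt_zero hzp.1 hy h0 with h | h
    · exact hgl (by rw [h])
    · exact hgl (by rw [h, gl_neg])
  -- from closeness to `y` to closeness of `z'`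
  have trans' : ∀ e : GaussianInt, (∃ j : ℤ, |ang y - ang e + 2 * Real.pi * j| ≤ δ) →
      (∃ j : ℤ, |ang z' - (ang e - ang u) + 2 * Real.pi * j| ≤ δ) := by
    rintro e ⟨j, hj⟩
    refine ⟨j + j1, ?_⟩
    have e1 : ang z' - (ang e - ang u) + 2 * Real.pi * ((j + j1 : ℤ) : ℝ) =
        ang y - ang e + 2 * Real.pi * j := by
      rw [hj1]; push_cast; ring
    rw [e1]; exact hj
  rcases lt_or_gt_of_ne hdt with hneg | hpos
  · have hd : 0 < dt y z := by
      have : dt y z = - dt z y := by unfold dt; ring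
      omega
    obtain ⟨e, he, h1, h2, h3, h4⟩ := hB (2 * X) y z hyX hzX hd (by
      intro h; exact hgl h.symm)
    have he0 : e.1 ≠ 0 := by
      unfold sedge edge at he
      rw [mem_filter, mem_filter, mem_product] at he
      exact prim_ne_zero (mem_pball.1 he.1.1.1).1
    have hs : |ang z - ang y + 2 * Real.pi * m| ≤ δ := hr
    obtain ⟨g1, g2⟩ := between hy0 hz0 he0 hd hδ hs h1 h3
    exact ⟨e, he, g2, trans' _ g1⟩
  · obtain ⟨e, he, h1, h2, h3, h4⟩ := hB (2 * X) z y hzX hyX hpos hgl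
    have he0 : e.1 ≠ 0 := by
      unfold sedge edge at he
      rw [mem_filter, mem_filter, mem_product] at he
      exact prim_ne_zero (mem_pball.1 he.1.1.1).1
    have hs : |ang y - ang z + 2 * Real.pi * ((-m : ℤ) : ℝ)| ≤ δ := by
      have : ang y - ang z + 2 * Real.pi * ((-m : ℤ) : ℝ) = -(ang z - ang y + 2 * Real.pi * m) := by
        push_cast; ring
      rw [this, abs_neg]; exact hr
    obtain ⟨g1, g2⟩ := between hz0 hy0 he0 hpos hδ hs h1 h3
    exact ⟨e, he, g1, trans' _ g2⟩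

lemma geom_half (J : ℕ) : ∑ j ∈ range J, (1 / 2 : ℝ) ^ j ≤ 2 := by
  have : ∑ j ∈ range J, (1 / 2 : ℝ) ^ j = 2 - 2 * (1 / 2) ^ J := by
    induction J with
    | zero => simp
    | succ J ih => rw [Finset.sum_range_succ, ih]; ring
  rw [this]
  have : (0 : ℝ) ≤ (1 / 2) ^ J := by positivity
  linarith

lemma geom_quarter (J : ℕ) : ∑ j ∈ range J, (1 / 4 : ℝ) ^ j ≤ 2 := by
  refine le_trans (Finset.sum_le_sum fun j _ => ?_) (geom_half J)
  exact pow_le_pow_left₀ (by norm_num) (by norm_num) j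

/-- the pointwise bound -/
lemma pt_bound {K : ℕ} (hK : 1 ≤ K) {T : ℝ} (hT : 1 ≤ T) {r : ℝ} (hr : |r| ≤ Real.pi) :
    Fj K r ≤ (if |r| ≤ T / K then (K : ℝ) else 0) +
      ∑ j ∈ range (K + 2), (if |r| ≤ 2 ^ (j + 1) * T / K then
        Real.pi ^ 2 * K / (T ^ 2) * (1 / 4) ^ j else 0) := by
  have hKR : (1 : ℝ) ≤ K := by exact_mod_cast hK
  have hK0 : (0 : ℝ) < K := by linarith
  have hT0 : 0 < T := by linarith
  have hpi := Real.pi_pos
  by_cases hn : |r| ≤ T / K
  · rw [if_pos hn]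
    have h1 := Fj_le K r
    have h2 : 0 ≤ ∑ j ∈ range (K + 2), (if |r| ≤ 2 ^ (j + 1) * T / K then
        Real.pi ^ 2 * K / (T ^ 2) * (1 / 4) ^ j else 0) := by
      apply Finset.sum_nonneg
      intro j _
      split_ifs
      · positivity
      · exact le_rfl
    linarith
  · rw [if_neg hn, zero_add]
    push Not at hn
    have hrpos : 0 < |r| := lt_trans (by positivity) hn
    have hr0 : r ≠ 0 := abs_pos.1 hrpos
    have hx : 1 ≤ |r| * K / T := by
      rw [le_div_iff₀ hT0, one_mul]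
      rw [div_lt_iff₀ hK0] at hn
      exact hn.le
    obtain ⟨j, hj1, hj2⟩ := exists_nat_pow_near hx (by norm_num : (1 : ℝ) < 2)
    have hjK : j ∈ range (K + 2) := by
      rw [Finset.mem_range]
      by_contra hcon
      push Not at hcon
      have h1 : (2 : ℝ) ^ (K + 2) ≤ 2 ^ j := pow_le_pow_right₀ (by norm_num) hcon
      have h2 : |r| * K / T ≤ Real.pi * K := by
        rw [div_le_iff₀ hT0]
        calc |r| * K ≤ Real.pi * K := mul_le_mul_of_nonneg_right hr hK0.le
          _ = Real.pi * K * 1 := by ring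
          _ ≤ Real.pi * K * T := mul_le_mul_of_nonneg_left hT (by positivity)
      have h3 : (K : ℝ) < 2 ^ K := by exact_mod_cast Nat.lt_two_pow_self
      have h4 : Real.pi < 4 := Real.pi_lt_four
      have h5 : Real.pi * K < 4 * 2 ^ K := by
        calc Real.pi * K < 4 * K := by nlinarith
          _ < 4 * 2 ^ K := by linarith
      have h6 : (2 : ℝ) ^ (K + 2) = 4 * 2 ^ K := by rw [pow_add]; ring
      linarith
    have hterm : Fj K r ≤ (if |r| ≤ 2 ^ (j + 1) * T / K then
        Real.pi ^ 2 * K / (T ^ 2) * (1 / 4) ^ j else 0) := by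
      have hc : |r| ≤ 2 ^ (j + 1) * T / K := by
        rw [le_div_iff₀ hK0]
        rw [div_lt_iff₀ hT0] at hj2
        exact hj2.le
      rw [if_pos hc]
      refine (Fj_le_sq hK hr0 hr).trans ?_
      rw [le_div_iff₀ hT0] at hj1
      have h1 : (2 ^ j * T) ^ 2 ≤ (|r| * K) ^ 2 := pow_le_pow_left₀ (by positivity) hj1 2
      have h2 : (|r| * K) ^ 2 = K ^ 2 * r ^ 2 := by rw [mul_pow, sq_abs]; ring
      rw [h2] at h1
      have h3 : (2 ^ j * T : ℝ) ^ 2 = 4 ^ j * T ^ 2 := by
        rw [mul_pow, ← pow_mul, mul_comm j 2, pow_mul]; norm_num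
      rw [h3] at h1
      rw [div_le_iff₀ (by positivity)]
      have h4 : Real.pi ^ 2 * K / T ^ 2 * (1 / 4) ^ j * (K * r ^ 2) =
          Real.pi ^ 2 / (4 ^ j * T ^ 2) * (K ^ 2 * r ^ 2) := by
        rw [one_div, inv_pow]
        field_simp
      rw [h4, div_mul_eq_mul_div, le_div_iff₀ (by positivity)]
      exact mul_le_mul_of_nonneg_left h1 (by positivity)
    refine hterm.trans ?_
    refine Finset.single_le_sum (f := fun j => (if |r| ≤ 2 ^ (j + 1) * T / K then
        Real.pi ^ 2 * K / (T ^ 2) * (1 / 4) ^ j else 0)) ?_ hjK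
    intro i _
    split_ifs
    · positivity
    · exact le_rfl

theorem pair_of : S_SECT → S_BETW → S_LAT → S_PAIR := by
  classical
  intro hS hB hL
  obtain ⟨C, hC, hS⟩ := hS
  obtain ⟨CL, hCL, hL, -⟩ := hL
  have hpi := Real.pi_pos
  refine ⟨C ^ 2 + (Real.pi + CL) * (8 * C * Real.pi ^ 2), by positivity, ?_⟩
  intro X T K u hX hT hK hTK hu
  have hX0 : 0 < X := by linarith
  have hT0 : 0 < T := by linarith
  have hKR : (1 : ℝ) ≤ K := by exact_mod_cast hK
  have hK0 : (0 : ℝ) < K := by linarith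
  have hu0 : u ≠ 0 := by
    rcases hu with rfl | rfl
    · exact one_ne_zero
    · intro h
      have := congrArg Zsqrtd.re h
      simp at this
  have hnu : (nm u : ℝ) ≤ 2 := by
    rcases hu with rfl | rfl
    · simp
    · have : nm (⟨1, 1⟩ : GaussianInt) = 2 := by decide
      rw [this]; norm_num
  have hδ : T / K ≤ 1 / 2 := by
    rw [div_le_div_iff₀ hK0 (by norm_num)]; linarith
  set r : GaussianInt → GaussianInt → ℝ := fun z z' => rd (ang z - ang (u * z')) with hr
  -- pointwise bound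
  have hpt : ∀ z ∈ pball X, ∀ z' ∈ pball X,
      (if gl z ≠ gl (u * z') then Fj K (ang z - ang (u * z')) else 0) ≤
      (if gl z ≠ gl (u * z') ∧ |r z z'| ≤ T / K then (K : ℝ) else 0) +
      ∑ j ∈ range (K + 2), (if |r z z'| ≤ 2 ^ (j + 1) * T / K then
        Real.pi ^ 2 * K / (T ^ 2) * (1 / 4) ^ j else 0) := by
    intro z _ z' _
    have h1 := pt_bound hK hT (abs_rd_le (ang z - ang (u * z')))
    have h2 : 0 ≤ ∑ j ∈ range (K + 2), (if |r z z'| ≤ 2 ^ (j + 1) * T / K then
        Real.pi ^ 2 * K / (T ^ 2) * (1 / 4) ^ j else 0) := by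
      apply Finset.sum_nonneg
      intro j _
      split_ifs
      · positivity
      · exact le_rfl
    by_cases hg : gl z ≠ gl (u * z')
    · rw [if_pos hg, Fj_rd]
      refine h1.trans ?_
      apply add_le_add _ le_rfl
      by_cases hn : |rd (ang z - ang (u * z'))| ≤ T / K
      · rw [if_pos hn, if_pos ⟨hg, hn⟩]
      · rw [if_neg hn]
        split_ifs
        · positivity
        · exact le_rfl
    · rw [if_neg hg]
      have : 0 ≤ (if gl z ≠ gl (u * z') ∧ |r z z'| ≤ T / K then (K : ℝ) else 0) := by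
        split_ifs
        · positivity
        · exact le_rfl
      linarith
  -- near pairs
  have hnear : ∑ z ∈ pball X, ∑ z' ∈ pball X,
      (if gl z ≠ gl (u * z') ∧ |r z z'| ≤ T / K then (K : ℝ) else 0) ≤
      C ^ 2 * (K * (T * X / K + 1) ^ 2 * ((sedge (2 * X)).card : ℝ)) := by
    rw [← Finset.sum_product', ← Finset.sum_filter, Finset.sum_const, nsmul_eq_mul]
    set A : GaussianInt × GaussianInt → Finset GaussianInt := fun e =>
      (pball X).filter (fun z => ∃ j : ℤ, |ang z - ang e.1 + 2 * Real.pi * j| ≤ T / K) with hA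
    set B : GaussianInt × GaussianInt → Finset GaussianInt := fun e =>
      (pball X).filter (fun z => ∃ j : ℤ, |ang z - (ang e.1 - ang u) + 2 * Real.pi * j| ≤ T / K)
      with hBd
    have hsub : ((pball X ×ˢ pball X).filter
        (fun p : GaussianInt × GaussianInt => gl p.1 ≠ gl (u * p.2) ∧ |r p.1 p.2| ≤ T / K)) ⊆
        (sedge (2 * X)).biUnion (fun e => A e ×ˢ B e) := by
      rintro ⟨z, z'⟩ hp
      rw [mem_filter, mem_product] at hp
      obtain ⟨⟨hz, hz'⟩, hg, hn⟩ := hp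
      obtain ⟨e, he, h1, h2⟩ := near_edge hB hz hz' hu0 hnu hg hδ hn
      rw [mem_biUnion]
      exact ⟨e, he, mem_product.2 ⟨mem_filter.2 ⟨hz, h1⟩, mem_filter.2 ⟨hz', h2⟩⟩⟩
    have hcard : (((pball X ×ˢ pball X).filter
        (fun p : GaussianInt × GaussianInt => gl p.1 ≠ gl (u * p.2) ∧ |r p.1 p.2| ≤ T / K)).card : ℝ) ≤
        ((sedge (2 * X)).card : ℝ) * (C * (X * (T / K) + 1)) ^ 2 := by
      have h1 := (Finset.card_le_card hsub).trans Finset.card_biUnion_le
      have h2 : ((∑ e ∈ sedge (2 * X), (A e ×ˢ B e).card : ℕ) : ℝ) ≤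
          ∑ e ∈ sedge (2 * X), (C * (X * (T / K) + 1)) ^ 2 := by
        push_cast
        apply Finset.sum_le_sum
        intro e _
        rw [Finset.card_product]
        push_cast
        rw [pow_two]
        have hδ0 : 0 ≤ T / K := by positivity
        have hδπ : T / K ≤ Real.pi := by have := Real.pi_gt_three; linarith
        apply mul_le_mul
        · have := hS X (T / K) (ang e.1) hX hδ0 hδπ
          simpa [hA] using this
        · have := hS X (T / K) (ang e.1 - ang u) hX hδ0 hδπ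
          simpa [hBd] using this
        · positivity
        · positivity
      rw [Finset.sum_const, nsmul_eq_mul] at h2
      exact le_trans (by exact_mod_cast h1) h2
    calc (((pball X ×ˢ pball X).filter
        (fun p : GaussianInt × GaussianInt => gl p.1 ≠ gl (u * p.2) ∧ |r p.1 p.2| ≤ T / K)).card : ℝ)
          * K ≤ ((sedge (2 * X)).card : ℝ) * (C * (X * (T / K) + 1)) ^ 2 * K :=
          mul_le_mul_of_nonneg_right hcard hK0.le
      _ = C ^ 2 * (K * (T * X / K + 1) ^ 2 * ((sedge (2 * X)).card : ℝ)) := by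
          have : X * (T / K) = T * X / K := by ring
          rw [this]; ring
  -- far pairs
  have hfar : ∑ z ∈ pball X, ∑ z' ∈ pball X,
      ∑ j ∈ range (K + 2), (if |r z z'| ≤ 2 ^ (j + 1) * T / K then
        Real.pi ^ 2 * K / (T ^ 2) * (1 / 4) ^ j else 0) ≤
      (Real.pi + CL) * (8 * C * Real.pi ^ 2) * (X ^ 2 / T + X * K / T ^ 2) := by
    have hone : ∀ z ∈ pball X, ∑ z' ∈ pball X,
        ∑ j ∈ range (K + 2), (if |r z z'| ≤ 2 ^ (j + 1) * T / K then
          Real.pi ^ 2 * K / (T ^ 2) * (1 / 4) ^ j else 0) ≤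
        8 * C * Real.pi ^ 2 * (X / T + K / T ^ 2) := by
      intro z _
      rw [Finset.sum_comm]
      have hj : ∀ j ∈ range (K + 2), ∑ z' ∈ pball X, (if |r z z'| ≤ 2 ^ (j + 1) * T / K then
          Real.pi ^ 2 * K / (T ^ 2) * (1 / 4) ^ j else 0) ≤
          2 * C * Real.pi ^ 2 * X / T * (1 / 2) ^ j + C * Real.pi ^ 2 * K / T ^ 2 * (1 / 4) ^ j := by
        intro j _
        rw [← Finset.sum_filter, Finset.sum_const, nsmul_eq_mul]
        set δ := min Real.pi (2 ^ (j + 1) * T / K) with hδd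
        have hδ0 : 0 ≤ δ := le_min hpi.le (by positivity)
        have hsub : (pball X).filter (fun z' => |r z z'| ≤ 2 ^ (j + 1) * T / K) ⊆
            (pball X).filter (fun z' => ∃ m : ℤ, |ang z' - (ang z - ang u) + 2 * Real.pi * m| ≤ δ) := by
          intro z' hz'
          rw [mem_filter] at hz' ⊢
          refine ⟨hz'.1, ?_⟩
          obtain ⟨m, hm⟩ := rd_eq (ang z - ang (u * z'))
          obtain ⟨j1, hj1⟩ := ang_mul hu0 (prim_ne_zero (mem_pball.1 hz'.1).1)
          refine ⟨j1 - m, ?_⟩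
          have e1 : ang z' - (ang z - ang u) + 2 * Real.pi * ((j1 - m : ℤ) : ℝ) = -(r z z') := by
            rw [hr]
            simp only
            rw [hm, hj1]
            push_cast; ring
          rw [e1, abs_neg]
          exact le_min (abs_rd_le _) hz'.2
        have h1 : (((pball X).filter (fun z' => |r z z'| ≤ 2 ^ (j + 1) * T / K)).card : ℝ) ≤
            C * (X * (2 ^ (j + 1) * T / K) + 1) := by
          have h2 := hS X δ (ang z - ang u) hX hδ0 (min_le_left _ _)
          have h3 : (((pball X).filter (fun z' => |r z z'| ≤ 2 ^ (j + 1) * T / K)).card : ℝ) ≤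
              (((pball X).filter (fun z' => ∃ m : ℤ,
                |ang z' - (ang z - ang u) + 2 * Real.pi * m| ≤ δ)).card : ℝ) := by
            exact_mod_cast Finset.card_le_card hsub
          have h4 : C * (X * δ + 1) ≤ C * (X * (2 ^ (j + 1) * T / K) + 1) := by
            apply mul_le_mul_of_nonneg_left _ hC.le
            have := mul_le_mul_of_nonneg_left (min_le_right Real.pi (2 ^ (j + 1) * T / K)) hX0.le
            linarith
          exact h3.trans (h2.trans h4)
        calc _ ≤ C * (X * (2 ^ (j + 1) * T / K) + 1) * (Real.pi ^ 2 * K / T ^ 2 * (1 / 4) ^ j) :=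
              mul_le_mul_of_nonneg_right h1 (by positivity)
          _ = 2 * C * Real.pi ^ 2 * X / T * (1 / 2) ^ j + C * Real.pi ^ 2 * K / T ^ 2 * (1 / 4) ^ j := by
              have e1 : (2 : ℝ) ^ (j + 1) * (1 / 4) ^ j = 2 * (1 / 2) ^ j := by
                rw [pow_succ, mul_comm ((2 : ℝ) ^ j) 2, mul_assoc, ← mul_pow]; norm_num
              have e2 : C * (X * (2 ^ (j + 1) * T / K) + 1) * (Real.pi ^ 2 * K / T ^ 2 * (1 / 4) ^ j) =
                  C * X * Real.pi ^ 2 / T * (2 ^ (j + 1) * (1 / 4) ^ j) +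
                    C * Real.pi ^ 2 * K / T ^ 2 * (1 / 4) ^ j := by
                field_simp
              rw [e2, e1]; ring
      refine (Finset.sum_le_sum hj).trans ?_
      rw [Finset.sum_add_distrib, ← Finset.mul_sum, ← Finset.mul_sum]
      have g1 := mul_le_mul_of_nonneg_left (geom_half (K + 2))
        (by positivity : 0 ≤ 2 * C * Real.pi ^ 2 * X / T)
      have g2 := mul_le_mul_of_nonneg_left (geom_quarter (K + 2))
        (by positivity : 0 ≤ C * Real.pi ^ 2 * K / T ^ 2)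
      have g3 : 0 ≤ C * Real.pi ^ 2 * X / T := by positivity
      have g4 : 0 ≤ C * Real.pi ^ 2 * K / T ^ 2 := by positivity
      calc _ ≤ 2 * C * Real.pi ^ 2 * X / T * 2 + C * Real.pi ^ 2 * K / T ^ 2 * 2 := add_le_add g1 g2
        _ = 4 * (C * Real.pi ^ 2 * X / T) + 2 * (C * Real.pi ^ 2 * K / T ^ 2) := by ring
        _ ≤ 8 * (C * Real.pi ^ 2 * X / T) + 8 * (C * Real.pi ^ 2 * K / T ^ 2) := by linarith
        _ = 8 * C * Real.pi ^ 2 * (X / T + K / T ^ 2) := by ring
    refine (Finset.sum_le_sum hone).trans ?_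
    rw [Finset.sum_const, nsmul_eq_mul]
    have hcard : ((pball X).card : ℝ) ≤ (Real.pi + CL) * X := by
      have h1 : ((pball X).card : ℝ) ≤ ((ball X).card : ℝ) := by
        exact_mod_cast Finset.card_le_card (Finset.filter_subset _ _)
      have h2 := (abs_le.1 (hL X hX)).2
      have h3 : Real.sqrt X ≤ X := by
        rw [Real.sqrt_le_left hX0.le]
        nlinarith
      have h4 := mul_le_mul_of_nonneg_left h3 hCL.le
      linarith
    calc ((pball X).card : ℝ) * (8 * C * Real.pi ^ 2 * (X / T + K / T ^ 2))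
        ≤ (Real.pi + CL) * X * (8 * C * Real.pi ^ 2 * (X / T + K / T ^ 2)) :=
          mul_le_mul_of_nonneg_right hcard (by positivity)
      _ = (Real.pi + CL) * (8 * C * Real.pi ^ 2) * (X ^ 2 / T + X * K / T ^ 2) := by ring
  have htot : ∑ z ∈ pball X, ∑ z' ∈ pball X,
      (if gl z ≠ gl (u * z') then Fj K (ang z - ang (u * z')) else 0) ≤
      C ^ 2 * (K * (T * X / K + 1) ^ 2 * ((sedge (2 * X)).card : ℝ)) +
      (Real.pi + CL) * (8 * C * Real.pi ^ 2) * (X ^ 2 / T + X * K / T ^ 2) := by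
    refine (Finset.sum_le_sum fun z hz => Finset.sum_le_sum fun z' hz' => hpt z hz z' hz').trans ?_
    simp only [Finset.sum_add_distrib] at hnear hfar ⊢
    linarith
  refine htot.trans ?_
  have a1 : 0 ≤ (K : ℝ) * (T * X / K + 1) ^ 2 * ((sedge (2 * X)).card : ℝ) := by positivity
  have a2 : 0 ≤ X ^ 2 / T + X * K / T ^ 2 := by positivity
  have a3 : 0 ≤ (Real.pi + CL) * (8 * C * Real.pi ^ 2) := by positivity
  have a4 : 0 ≤ C ^ 2 := by positivity
  have b1 := mul_nonneg a3 a1
  have b2 := mul_nonneg a4 a2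
  calc _ ≤ C ^ 2 * (K * (T * X / K + 1) ^ 2 * ((sedge (2 * X)).card : ℝ)) +
      (Real.pi + CL) * (8 * C * Real.pi ^ 2) * (X ^ 2 / T + X * K / T ^ 2) +
      ((Real.pi + CL) * (8 * C * Real.pi ^ 2)) * (K * (T * X / K + 1) ^ 2 * ((sedge (2 * X)).card : ℝ))
      + C ^ 2 * (X ^ 2 / T + X * K / T ^ 2) := by linarith
    _ = _ := by ring

end Pool.Agent.W79.GM
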